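import Mathlib

namespace Pool.Agent.Results.MP_701998_an.Q1

open MeasureTheory Filter Topology Real Finset
open scoped Nat

/-- The character `e^{-2πi x ξ}`. -/
noncomputable def ch (x ξ : ℝ) : ℂ := Complex.exp (-2 * π * Complex.I * x * ξ)

/-- The Fourier transform of a measure. -/
noncomputable def FT (μ : Measure ℝ) (ξ : ℝ) : ℂ := ∫ x, ch x ξ ∂μ

lemma step {N : ℕ} (T : Finset ℝ) (h : 3 * #T < N) (y : ℝ) :
    ∃ d : ℕ, d < N ∧ ∀ s ∈ T, ∀ θ ∈ Set.Icc (0 : ℝ) 1, ∀ z : ℤ, 1 ≤ |y + d + θ - s - N * z| := by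
  have : NeZero N := ⟨by omega⟩
  obtain ⟨d, -, hd⟩ := exists_mem_notMem_of_card_lt_card (t := univ) (s := T.biUnion fun s =>
    (Icc (-1 : ℤ) 1).image fun w => ((⌊s - y⌋ + w : ℤ) : ZMod N))
    ((card_biUnion_le_card_mul _ _ 3 fun _ _ => card_image_le).trans_lt (by simp; omega))
  refine ⟨d.val, d.val_lt, fun s hs θ ⟨a, b⟩ z => ?_⟩
  have : ¬ (-1 ≤ d.val - ⌊s - y⌋ - N * z ∧ d.val - ⌊s - y⌋ - N * z ≤ 1) := fun g =>
    hd (mem_biUnion.2 ⟨s, hs, mem_image.2 ⟨_, mem_Icc.2 g, by simp⟩⟩)
  have f1 := Int.floor_le (s - y)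
  have f2 := Int.lt_floor_add_one (s - y)
  rw [le_abs]
  rcases (by omega : 2 ≤ d.val - ⌊s - y⌋ - N * z ∨ d.val - ⌊s - y⌋ - N * z ≤ -2) with g | g <;>
    have := Int.cast_le (R := ℝ) |>.2 g <;> push_cast at this
  exacts [.inl (by linarith), .inr (by linarith)]

lemma nest {N : ℕ} (T : ℕ → Finset ℝ) (h : ∀ j, 3 * #(T j) < N) : ∃ a ∈ Set.Icc (0 : ℝ) (1 / N !),
    ∀ i, ∀ s ∈ T i, ∀ z : ℤ, 1 / (N : ℝ) ≤ |(N + i)! * a - s - z| := by
  classical
  have N0 : (0 : ℝ) < N := by have := h 0; norm_cast; omega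
  choose d d1 d2 using fun i => step ((T i).image (N * ·))
    ((Nat.mul_le_mul_left 3 card_image_le).trans_lt (h i))
  let A : ℕ → ℝ := Nat.rec 0 fun i a => a + d i (N * (N + i)! * a) / (N * (N + i)!)
  have f (i) : (0 : ℝ) < (N + i)! := by positivity
  have g (i a) (ha : a ∈ Set.Icc (A (i + 1)) (A (i + 1) + 1 / (N + (i + 1))!)) :
      N * (N + i)! * (a - A i) - d i (N * (N + i)! * A i) ∈ Set.Icc (0 : ℝ) 1 := by
    have e : A (i + 1) = A i + d i (N * (N + i)! * A i) / (N * (N + i)!) := rfl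
    have : 1 / ((N + (i + 1))! : ℝ) ≤ 1 / (N * (N + i)!) := by
      rw [← add_assoc, Nat.factorial_succ]; push_cast; gcongr; linarith [i.cast_nonneg (α := ℝ)]
    have p := mul_pos N0 (f i)
    have a1 := (div_le_iff₀ p).1 (le_sub_iff_add_le'.2 (e ▸ ha.1))
    have a2 := (le_div_iff₀ p).1 (show a - A i ≤ (d i (N * (N + i)! * A i) + 1) / (N * (N + i)!) by
      rw [add_div]; linarith [ha.2])
    constructor <;> linarith
  obtain ⟨a, ha⟩ := IsCompact.nonempty_iInter_of_sequence_nonempty_isCompact_isClosed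
    (fun i => Set.Icc (A i) (A i + 1 / (N + i)!)) (fun i a ha => by
      obtain ⟨p, q⟩ := g i a ha
      have : (d i (N * (N + i)! * A i) : ℝ) + 1 ≤ N := mod_cast d1 i _
      have r := (d i (N * (N + i)! * A i)).cast_nonneg (α := ℝ)
      have := f i
      refine ⟨sub_nonneg.1 (nonneg_of_mul_nonneg_right (by linarith) (mul_pos N0 (f i))), ?_⟩
      rw [← sub_le_iff_le_add', le_div_iff₀ (f i)]
      nlinarith)
    (fun i => Set.nonempty_Icc.2 (le_add_of_nonneg_right (by positivity))) isCompact_Icc fun _ => isClosed_Icc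
  rw [Set.mem_iInter] at ha
  refine ⟨a, by simpa [A] using ha 0, fun i s hs z => ?_⟩
  have := d2 i (N * (N + i)! * A i) _ (mem_image_of_mem _ hs) _ (g i a (ha (i + 1))) z
  rw [div_le_iff₀ N0]
  refine this.trans_eq ((congrArg abs ?_).trans ((abs_mul ((N + i)! * a - s - z) N).trans (by rw [abs_of_pos N0])))
  ring

def F : Set ℝ := {x | ∀ j : ℕ, j * |x| ≤ 1 ∨ |x| ≤ |sin (π * (j ! * x))|}

lemma sinl (y : ℝ) : 2 * |y - round y| ≤ |sin (π * y)| := by
  have := mul_abs_le_abs_sin (x := π * (y - round y)) (by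
    rw [abs_mul, abs_of_pos pi_pos]; nlinarith [abs_sub_round y, pi_pos])
  rw [abs_mul, abs_of_pos pi_pos, mul_sub, mul_comm π (round y : ℝ), sin_sub_int_mul_pi, abs_mul,
    abs_neg_one_zpow, one_mul] at this
  convert this using 1; field_simp

lemma ch_add (x a b : ℝ) : ch x (a + b) = ch x a * ch x b := by simp [ch, mul_add, Complex.exp_add]
lemma nch (x a : ℝ) : ‖ch x a‖ = 1 := by simp [ch, Complex.norm_exp]
lemma nch1 (x a : ℝ) : ‖ch x a - 1‖ = 2 * |sin (π * (a * x))| := by
  rw [ch, show -2 * π * Complex.I * x * a = Complex.I * (-2 * (π * (a * x)) : ℝ) by push_cast; ring,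
    Complex.norm_exp_I_mul_ofReal_sub_one, show -2 * (π * (a * x)) / 2 = -(π * (a * x)) by ring]
  simp

lemma bd {x : ℝ} (hx : x ∈ F) {M j : ℕ} (h : M ≤ j) {σ : ℝ} (hσ : σ = 1 ∨ σ = -1) (n : ℝ) :
    ‖(∑ a ∈ range M, ch x (a * (σ * j !))) * (ch x n - 1)‖ ≤ 2 * π * |n| := by
  have : ‖∑ a ∈ range M, ch x (a * (σ * j !))‖ * |x| ≤ 1 := by
    rcases hx j with g | g
    · refine le_trans (mul_le_mul_of_nonneg_right ((norm_sum_le _ _).trans ?_) (abs_nonneg x)) g
      simpa [nch] using h
    · have := congrArg norm (geom_sum_mul (ch x (σ * j !)) M)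
      have b := norm_sub_le (ch x (σ * j !) ^ M) 1
      rw [norm_mul, nch1, show |sin (π * (σ * j ! * x))| = |sin (π * (j ! * x))| by
        rcases hσ with rfl | rfl <;> simp] at this
      rw [norm_pow, nch, one_pow, norm_one] at b
      rw [sum_congr rfl fun a _ => show _ = ch x (σ * j !) ^ a by
        rw [ch, ch, ← Complex.exp_nat_mul]; push_cast; ring_nf]
      nlinarith [norm_nonneg (∑ i ∈ range M, ch x (σ * j !) ^ i)]
  have s := abs_sin_le_abs (x := π * (n * x))
  rw [abs_mul, abs_mul, abs_of_pos pi_pos] at s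
  rw [norm_mul, nch1]
  nlinarith [norm_nonneg (∑ a ∈ range M, ch x (a * (σ * j !))), mul_nonneg pi_pos.le (abs_nonneg n)]

lemma noR (μ : Measure ℝ) [IsFiniteMeasure μ] (h : ∀ᵐ x ∂μ, x ∈ F)
    (t : Tendsto (FT μ) (cocompact ℝ) (𝓝 0)) : μ = 0 := by
  have I (a) : Integrable (ch · a) μ :=
    .of_bound (by unfold ch; fun_prop) 1 (.of_forall fun x => (nch x a).le)
  have H (n : ℝ) : 2 * FT μ 0 - FT μ n - FT μ (-n) = 0 := by
    have (M : ℕ) : M * ‖2 * FT μ 0 - FT μ n - FT μ (-n)‖ ≤ (2 * π * |n|) ^ 2 * μ.real Set.univ := by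
      have l : Tendsto (fun j : ℕ => ∑ a ∈ range M, ∑ b ∈ range M, (2 * FT μ ((a - b) * j !) -
          FT μ ((a - b) * j ! + n) - FT μ ((a - b) * j ! + -n))) atTop (𝓝 (∑ a ∈ range M, ∑ b ∈ range M,
          if a = b then 2 * FT μ 0 - FT μ n - FT μ (-n) else 0)) :=
        tendsto_finsetSum _ fun a _ => tendsto_finsetSum _ fun b _ => by
          split_ifs with g
          · simp [g]
          have (c : ℝ) : Tendsto (fun j : ℕ => FT μ ((a - b) * j ! + c)) atTop (𝓝 0) := by
            have f := tendsto_natCast_atTop_atTop (R := ℝ).comp (tendsto_atTop_mono Nat.self_le_factorial tendsto_id)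
            rcases lt_or_gt_of_ne g with g | g
            · exact t.comp ((tendsto_atBot_add_const_right _ c (f.const_mul_atTop_of_neg
                (sub_neg.2 (Nat.cast_lt.2 g)))).mono_right atBot_le_cocompact)
            · exact t.comp ((tendsto_atTop_add_const_right _ c (f.const_mul_atTop
                (sub_pos.2 (Nat.cast_lt.2 g)))).mono_right atTop_le_cocompact)
          simpa using (((this 0).const_mul 2).sub (this n)).sub (this (-n))
      have := le_of_tendsto l.norm ((eventually_ge_atTop M).mono fun j hj => le_of_eq_of_le ?_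
        (norm_integral_le_of_norm_le_const (μ := μ) (f := fun x => (∑ a ∈ range M, ch x (a * (1 * j !))) *
          (ch x n - 1) * ((∑ a ∈ range M, ch x (a * (-1 * j !))) * (ch x (-n) - 1)))
          (C := (2 * π * |n|) ^ 2) (h.mono fun x hx => ?_)))
      · rw [sum_congr rfl fun a ha => (sum_ite_eq _ a _).trans (if_pos ha), sum_const, card_range,
          nsmul_eq_mul, norm_mul] at this
        simpa using this
      · have J (c : ℝ) : Integrable (fun x => 2 * ch x c - ch x (c + n)) μ :=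
          ((I c).const_mul 2).sub (I (c + n))
        have K (c : ℝ) : 2 * FT μ c - FT μ (c + n) - FT μ (c + -n) =
            ∫ x, 2 * ch x c - ch x (c + n) - ch x (c + -n) ∂μ := by
          rw [integral_sub (J c) (I _), integral_sub ((I _).const_mul 2) (I _), integral_const_mul]; rfl
        have L (c : ℝ) : Integrable (fun x => 2 * ch x c - ch x (c + n) - ch x (c + -n)) μ := (J c).sub (I _)
        simp only [K]
        congr 1
        rw [sum_congr rfl fun a _ => (integral_finsetSum _ fun b _ => L _).symm,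
          ← integral_finsetSum _ fun a _ => integrable_finsetSum _ fun b _ => L _]
        refine integral_congr_ae (.of_forall fun x => ?_)
        have : ch x n * ch x (-n) = 1 := by rw [← ch_add]; simp [ch]
        beta_reduce
        rw [mul_mul_mul_comm, sum_mul_sum]
        simp only [sum_mul, ch_add]
        refine sum_congr rfl fun a _ => sum_congr rfl fun b _ => ?_
        rw [← ch_add x (a * _), show (a : ℝ) * (1 * j !) + b * (-1 * j !) = (a - b) * (j !) by ring]
        linear_combination -ch x ((a - b) * j !) * this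
      · rw [norm_mul, sq]
        exact mul_le_mul (bd hx hj (.inl rfl) n) ((bd hx hj (.inr rfl) _).trans_eq (by rw [abs_neg]))
          (norm_nonneg _) (by positivity)
    by_contra g
    obtain ⟨M, hM⟩ := exists_nat_gt ((2 * π * |n|) ^ 2 * μ.real Set.univ / ‖2 * FT μ 0 - FT μ n - FT μ (-n)‖)
    exact ((div_lt_iff₀ (norm_pos_iff.2 g)).1 hM).not_ge (this M)
  have := tendsto_nhds_unique ((tendsto_const_nhds.sub (t.mono_left atTop_le_cocompact)).sub
    (t.comp (tendsto_neg_atTop_atBot.mono_right atBot_le_cocompact))) (tendsto_const_nhds.congr fun n => (H n).symm)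
  simpa [FT, ch, measureReal_eq_zero_iff] using this

theorem result : ∃ E : Set ℝ, Perfect E ∧ (∀ T : Finset ℝ, ∃ a b : ℝ, b ≠ 0 ∧ ∀ t ∈ T, a + b * t ∈ E) ∧
    ∀ μ : Measure ℝ, IsFiniteMeasure μ → μ ≠ 0 → μ.support ⊆ E →
      ¬ Tendsto (FT μ) (cocompact ℝ) (𝓝 0) := by
  classical
  obtain ⟨V, E, hV, hE, e⟩ := exists_countable_union_perfect_of_isClosed (C := F) (by
    simp only [F, Set.setOf_forall, Set.setOf_or]
    exact isClosed_iInter fun j => (isClosed_le (by fun_prop) (by fun_prop)).union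
      (isClosed_le (by fun_prop) (by fun_prop)))
  refine ⟨E, hE, fun T => ?_, fun μ _ h s t => h (noR μ (mem_of_superset μ.support_mem_ae
    (s.trans (e ▸ Set.subset_union_right))) t)⟩
  obtain ⟨v, hv⟩ := (hV.insert 0).exists_eq_range (Set.insert_nonempty _ _)
  obtain ⟨B, hB⟩ := (T.image abs).exists_le
  obtain ⟨N, hN⟩ : ∃ N, N = 6 * #T + 3 := ⟨_, rfl⟩
  have N0 : (0 : ℝ) < N := by rw [hN]; positivity
  let b := 1 / (2 * N * (|B| + 1))
  obtain ⟨a, ⟨a0, a1⟩, ha⟩ := nest (N := N) (fun i => T.image (fun t => -((N + i)! * (b * t))) ∪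
    T.image fun t => (N + i)! * (v i - b * t)) fun i => by
      have := (card_union_le _ _).trans (add_le_add (card_image_le (s := T) (f := fun t => -((N + i)! * (b * t))))
        (card_image_le (s := T) (f := fun t => (N + i)! * (v i - b * t))))
      omega
  refine ⟨a, b, by positivity, fun t ht => (e.le ?_).resolve_left fun g => ?_⟩
  · have : |a + b * t| ≤ 1 / N := by
      have p : 1 / (N ! : ℝ) ≤ 1 / (2 * N) := by
        gcongr; norm_cast
        obtain ⟨n, rfl⟩ : ∃ n, N = n + 1 := ⟨N - 1, by omega⟩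
        rw [Nat.factorial_succ, mul_comm]
        exact Nat.mul_le_mul_left _ ((show 2 ≤ n by omega).trans (Nat.self_le_factorial n))
      have q : |b * t| ≤ 1 / (2 * N) := by
        rw [abs_mul, abs_of_pos (show 0 < b by positivity), div_mul_eq_mul_div, div_le_div_iff₀ (by positivity)
          (by positivity)]
        nlinarith [hB _ (mem_image_of_mem _ ht), le_abs_self B]
      refine (abs_add_le _ _).trans ?_
      rw [abs_of_nonneg a0, show 1 / (N : ℝ) = 1 / (2 * N) + 1 / (2 * N) by field_simp; ring]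
      linarith
    intro j
    rcases le_total j N with g | g
    · exact .inl ((mul_le_mul (Nat.cast_le.2 g) this (abs_nonneg _) N0.le).trans_eq (by field_simp))
    obtain ⟨i, rfl⟩ := Nat.exists_eq_add_of_le g
    have p := ha i _ (mem_union_left _ (mem_image_of_mem _ ht)) (round (((N + i)! : ℝ) * (a + b * t)))
    have q := sinl ((N + i)! * (a + b * t))
    rw [sub_neg_eq_add, ← mul_add] at p
    exact .inr (by linarith [abs_nonneg (a + b * t)])
  · obtain ⟨i, hi⟩ := hv.le (Set.mem_insert_of_mem _ g)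
    have := ha i _ (mem_union_right _ (mem_image_of_mem _ ht)) 0
    simp [hi] at this
    linarith

end Pool.Agent.Results.MP_701998_an.Q1
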